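import Pool.Agent.Helper94.PQ.StmtsT

/-!
# PQ, row SQN: the conductor is a square (via the norm)
-/

set_option autoImplicit false
set_option linter.deprecated false

open NumberField
open IsDedekindDomain (HeightOneSpectrum)
open scoped Classical

namespace PQ36

open PQ BKA

variable {F : Type} [Field F] [NumberField F]

lemma q_ne_zero (v : Pl F) : q v ≠ 0 := by
  unfold q
  rw [Ne, Ideal.absNorm_eq_zero_iff]
  exact v.ne_bot

/-- the exponent of `v` in the ideal generated by `z` -/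
noncomputable def cnt (z : 𝓞 F) (v : Pl F) : ℕ :=
  (Associates.mk v.asIdeal).count (Associates.mk (Ideal.span {z} : Ideal (𝓞 F))).factors

lemma od_int (v : Pl F) (z : 𝓞 F) (hz : z ≠ 0) :
    od v (algebraMap (𝓞 F) F z) = (cnt z v : ℤ) := by
  unfold od cnt
  rw [HeightOneSpectrum.valuation_of_algebraMap, HeightOneSpectrum.intValuation_if_neg v hz,
    WithZero.log_exp, neg_neg]

lemma finite_cnt (z : 𝓞 F) (hz : z ≠ 0) : {v : Pl F | cnt z v ≠ 0}.Finite := by
  have hI : (Ideal.span {z} : Ideal (𝓞 F)) ≠ 0 := by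
    rw [Ideal.zero_eq_bot, Ne, Ideal.span_singleton_eq_bot]
    exact hz
  have h := Associates.finite_factors hI
  rw [Filter.eventually_cofinite] at h
  refine h.subset fun v hv => ?_
  simp only [Set.mem_setOf_eq] at hv ⊢
  intro h0
  exact hv (by exact_mod_cast h0)

lemma absNorm_eq (z : 𝓞 F) (hz : z ≠ 0) (S : Finset (Pl F))
    (hS : ∀ v, cnt z v ≠ 0 → v ∈ S) :
    Ideal.absNorm (Ideal.span {z} : Ideal (𝓞 F)) = ∏ v ∈ S, q v ^ cnt z v := by
  have hI : (Ideal.span {z} : Ideal (𝓞 F)) ≠ 0 := by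
    rw [Ideal.zero_eq_bot, Ne, Ideal.span_singleton_eq_bot]
    exact hz
  have h1 := Ideal.finprod_heightOneSpectrum_factorization hI
  have h2 : (∏ᶠ v : HeightOneSpectrum (𝓞 F), v.maxPowDividing (Ideal.span {z})) =
      ∏ v ∈ S, HeightOneSpectrum.maxPowDividing v (Ideal.span {z}) := by
    refine finprod_eq_prod_of_mulSupport_subset _ fun v hv => ?_
    refine hS v fun h0 => hv ?_
    change v.asIdeal ^ cnt z v = 1
    rw [h0, pow_zero]
  rw [← h1, h2, map_prod]
  refine Finset.prod_congr rfl fun v _ => ?_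
  change Ideal.absNorm (v.asIdeal ^ cnt z v) = _
  rw [map_pow]
  rfl

lemma isSquare_of_mul_sq {A s t : ℕ} (hs : s ≠ 0) (h : A * (s * s) = t * t) : IsSquare A := by
  have h1 : s ^ 2 ∣ t ^ 2 := ⟨A, by rw [sq, sq, ← h]; ring⟩
  have h2 : s ∣ t := (Nat.pow_dvd_pow_iff two_ne_zero).1 h1
  obtain ⟨c, rfl⟩ := h2
  refine ⟨c, ?_⟩
  have h3 : A * (s * s) = (c * c) * (s * s) := by rw [h]; ring
  exact Nat.eq_of_mul_eq_mul_right (Nat.pos_of_ne_zero (mul_ne_zero hs hs)) h3

/-- SQN for an algebraic integer. -/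
lemma main_int (z : 𝓞 F) (hz : z ≠ 0) (hsq : IsSquare (Algebra.norm ℚ (algebraMap (𝓞 F) F z)))
    (a : Pl F →₀ ℕ) (ha : ∀ v : Pl F, Even ((a v : ℤ) + od v (algebraMap (𝓞 F) F z))) :
    IsSquare (a.prod fun v j => q v ^ j) := by
  set S : Finset (Pl F) := a.support ∪ (finite_cnt z hz).toFinset with hSdef
  have hS : ∀ v, cnt z v ≠ 0 → v ∈ S := by
    intro v hv
    rw [hSdef, Finset.mem_union]
    right
    rw [Set.Finite.mem_toFinset]
    exact hv
  have hN := absNorm_eq z hz S hS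
  have hprod : (a.prod fun v j => q v ^ j) = ∏ v ∈ S, q v ^ a v := by
    refine Finsupp.prod_of_support_subset a ?_ _ fun v _ => by simp
    exact Finset.subset_union_left
  -- the norm is a square
  have hnorm : IsSquare (Ideal.absNorm (Ideal.span {z} : Ideal (𝓞 F))) := by
    have h1 : Ideal.absNorm (Ideal.span {z} : Ideal (𝓞 F)) = (Algebra.norm ℤ z).natAbs :=
      Ideal.absNorm_span_singleton z
    have h2 : Algebra.norm ℚ (algebraMap (𝓞 F) F z) = ((Algebra.norm ℤ z : ℤ) : ℚ) :=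
      (Algebra.coe_norm_int z).symm
    rw [h2, Rat.isSquare_intCast_iff] at hsq
    obtain ⟨t, ht⟩ := hsq
    rw [h1, ht, Int.natAbs_mul]
    exact ⟨_, rfl⟩
  obtain ⟨s, hs⟩ := hnorm
  have hs0 : s ≠ 0 := by
    rintro rfl
    rw [mul_zero, Ideal.absNorm_eq_zero_iff, Ideal.span_singleton_eq_bot] at hs
    exact hz hs
  refine isSquare_of_mul_sq (s := s) (t := ∏ v ∈ S, q v ^ ((a v + cnt z v) / 2)) hs0 ?_
  rw [← hs, hN, hprod, ← Finset.prod_mul_distrib, ← Finset.prod_mul_distrib]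
  refine Finset.prod_congr rfl fun v _ => ?_
  rw [← pow_add, ← pow_add]
  congr 1
  have h := ha v
  rw [od_int v z hz] at h
  have h' : Even (a v + cnt z v) := by
    have h3 : (((a v + cnt z v : ℕ)) : ℤ) = (a v : ℤ) + (cnt z v : ℤ) := by push_cast; rfl
    rw [← h3] at h
    exact_mod_cast h
  obtain ⟨k, hk⟩ := h'
  omega

lemma od_mul (v : Pl F) {x y : F} (hx : x ≠ 0) (hy : y ≠ 0) : od v (x * y) = od v x + od v y := by
  unfold od
  rw [map_mul, WithZero.log_mul ((Valuation.ne_zero_iff _).2 hx) ((Valuation.ne_zero_iff _).2 hy)]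
  ring

/-- SQN. -/
theorem st_SQN : ST_SQN := by
  intro F _ _ δ hδ hsq a ha
  obtain ⟨z, m, hm, hz⟩ : ∃ (z : 𝓞 F) (m : ℤ), m ≠ 0 ∧
      algebraMap (𝓞 F) F z = (m : F) * δ := by
    have halg : IsAlgebraic ℤ δ :=
      (IsFractionRing.isAlgebraic_iff ℤ ℚ F).2 (Algebra.IsAlgebraic.isAlgebraic δ)
    obtain ⟨m, hm, hint⟩ := halg.exists_integral_multiple
    refine ⟨⟨m • δ, hint⟩, m, hm, ?_⟩
    change m • δ = _
    rw [zsmul_eq_mul]
  have hmF : (m : F) ≠ 0 := by exact_mod_cast hm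
  have hz' : algebraMap (𝓞 F) F (z * (m : 𝓞 F)) = ((m : F) * (m : F)) * δ := by
    rw [map_mul, hz]
    simp only [map_intCast]
    ring
  have hne : z * (m : 𝓞 F) ≠ 0 := by
    intro h
    rw [h, map_zero] at hz'
    exact mul_ne_zero (mul_ne_zero hmF hmF) hδ hz'.symm
  refine main_int (z * (m : 𝓞 F)) hne ?_ a fun v => ?_
  · rw [hz', map_mul, map_mul]
    obtain ⟨t, ht⟩ := hsq
    rw [ht]
    exact ⟨Algebra.norm ℚ (m : F) * t, by ring⟩
  · rw [hz', od_mul v (mul_ne_zero hmF hmF) hδ, od_mul v hmF hmF]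
    have h := ha v
    obtain ⟨k, hk⟩ := h
    exact ⟨k + od v (m : F), by omega⟩

end PQ36
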